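import Pool.Agent.Helper88.GM.Goals
import Pool.Agent.Helper85.RR.S1

/-!
# MP_69be96_nt, project GM, packet S1: the mean square of the weight
-/

set_option autoImplicit false

open Finset Filter Topology

open scoped Classical

namespace Pool.Agent.Helper32.GM

open Pool.Agent.Helper88.GM
open Pool.Agent.Helper88.PP (pr Rg om Sf SS uu vv ee LA VV QQ cost nc dd)
open Pool.Agent.Helper88.RR (gg ab TB WB nz wb DB Db VM GB)
open Pool.Agent.Helper85.RR (ab_nonneg mem_TB card_TB prod_TB WB_eq DB_eq one_le_DB)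

/-- the points with a nonzero label are points -/
theorem sp_subset {P : Finset ℕ} (r : P → ℕ) : sp r ⊆ P := by
  unfold sp
  intro i hi
  obtain ⟨j, _, rfl⟩ := Finset.mem_image.1 hi
  exact j.2

/-- the number of points with a nonzero label -/
theorem card_sp {P : Finset ℕ} (r : P → ℕ) : (sp r).card = nz r := by
  unfold sp nz
  exact Finset.card_image_of_injective _ Subtype.val_injective

/-- Packet `S1`. -/
theorem s1 (h1 : StmtTS) (h2 : StmtGW) : StmtS1 := by
  obtain ⟨c, hc, E0, hE0⟩ := h1
  refine ⟨c, hc, max E0 1, fun E z x y hE hsr u v Q b hI m q hm hqm hV hK t ht P hP hPo => ?_⟩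
  have hE1 : 1 ≤ E := le_of_max_le_right hE
  have hz2 : 2 ≤ z := by
    have h1 : (1 : ℝ) + 1 ≤ z := by
      have h2 : (1 : ℝ) ≤ E := by exact_mod_cast hE1
      have h3 := Real.add_one_le_exp (E : ℝ)
      have h4 := hsr.1
      linarith
    have h5 : ((2 : ℕ) : ℝ) ≤ z := by
      push_cast
      linarith
    exact_mod_cast h5
  have hPy : P.card ≤ y := by
    refine (Finset.card_le_card hP).trans ?_
    simp
  have hP1 : P ⊆ Icc 1 z := by
    intro i hi
    have h3 := Finset.mem_Icc.1 (hP hi)
    exact Finset.mem_Icc.2 ⟨by omega, by omega⟩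
  refine ⟨one_le_DB m q (E / 16) z y hPy, ?_⟩
  have key := hE0 E z x y (le_of_max_le_left hE) hsr u v Q b hI m q (E / 16 / m + 1) hm hqm hV hK
    P hP1 hPo (TB m q (E / 16) z P)
    (fun r => ∏ i : P, (if r i = 0 then 1 else - ab m q z (r i))) ∅ (by simp)
    (fun r hr i _ => (mem_TB hr).1 i) (fun r hr i hi => absurd hi (Finset.notMem_empty i))
    (fun r hr => (card_TB hm hz2 hr).trans (Nat.le_succ _))
    (fun r hr => (prod_TB hz2 hr).trans (Nat.pow_le_pow_right (by omega) (by omega)))
    (fun r hr => by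
      rw [Finset.abs_prod]
      refine Finset.prod_le_prod (fun i _ => abs_nonneg _) fun i _ => ?_
      rw [if_neg (Finset.notMem_empty i)]
      split_ifs
      · rw [abs_one]
      · rw [abs_neg, abs_of_nonneg (ab_nonneg _ _ _ _)])
  rw [DB_eq]
  simp only [WB_eq]
  have h3 : ∀ r : P → ℕ, gB y z (sp r) = gg y z (nz r) := by
    intro r
    rw [h2 y z t (sp r) ((sp_subset r).trans hP), card_sp]
  simp only [h3] at key
  refine key.trans ?_
  rw [Finset.card_empty, pow_zero, mul_one]

end Pool.Agent.Helper32.GM
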